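import Mathlib

/-!
# Intervals in trees
-/

set_option autoImplicit false

namespace Q192.BT

open Set Topology Metric

noncomputable section

universe u

section

variable {T : Type u} [MetricSpace T]

/-- the intersection of all preconnected sets which contain x and y -/
def I (x y : T) : Set T := {z | ∀ E : Set T, IsPreconnected E → x ∈ E → y ∈ E → z ∈ E}

theorem left_mem (x y : T) : x ∈ I x y := fun _ _ h _ => h

theorem right_mem (x y : T) : y ∈ I x y := fun _ _ _ h => h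

theorem I_comm (x y : T) : I x y = I y x := by
  ext z
  exact ⟨fun h E h1 h2 h3 => h E h1 h3 h2, fun h E h1 h2 h3 => h E h1 h3 h2⟩

theorem I_sub {x y a b : T} (ha : a ∈ I x y) (hb : b ∈ I x y) : I a b ⊆ I x y :=
  fun _ hz E h1 h2 h3 => hz E h1 (ha E h1 h2 h3) (hb E h1 h2 h3)

theorem I_self (x : T) : I x x = {x} := by
  ext z
  constructor
  · intro h
    exact h {x} isPreconnected_singleton rfl rfl
  · rintro rfl
    exact left_mem z z

variable (T) in
/-- every interval is a monotone path -/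
def Tr : Prop := ∀ x y : T, ∃ α : ℝ → T, Continuous α ∧ α 0 = x ∧ α 1 = y ∧
  ∀ s t : ℝ, 0 ≤ s → s ≤ t → t ≤ 1 → I (α s) (α t) = α '' Icc s t

variable (hT : Tr T)

include hT

theorem I_conn (x y : T) : IsPreconnected (I x y) := by
  obtain ⟨α, h1, h2, h3, h4⟩ := hT x y
  rw [← h2, ← h3, h4 0 1 le_rfl zero_le_one le_rfl]
  exact isPreconnected_Icc.image _ h1.continuousOn

theorem I_comp (x y : T) : IsCompact (I x y) := by
  obtain ⟨α, h1, h2, h3, h4⟩ := hT x y
  rw [← h2, ← h3, h4 0 1 le_rfl zero_le_one le_rfl]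
  exact isCompact_Icc.image h1

theorem I_union (x y z : T) : I x y ⊆ I x z ∪ I z y := by
  intro w hw
  exact hw _ (IsPreconnected.union z (right_mem x z) (left_mem z y) (I_conn hT x z)
    (I_conn hT z y)) (Or.inl (left_mem x z)) (Or.inr (right_mem z y))

/-- total order -/
theorem I_total {p x y z : T} (hy : y ∈ I p x) (hz : z ∈ I p x) :
    (y ∈ I p z ∧ z ∈ I y x) ∨ (z ∈ I p y ∧ y ∈ I z x) := by
  obtain ⟨α, h1, h2, h3, h4⟩ := hT p x
  have h5 : I p x = α '' Icc 0 1 := by rw [← h2, ← h3, h4 0 1 le_rfl zero_le_one le_rfl]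
  rw [h5] at hy hz
  obtain ⟨s, ⟨hs0, hs1⟩, rfl⟩ := hy
  obtain ⟨t, ⟨ht0, ht1⟩, rfl⟩ := hz
  rcases le_total s t with h | h
  · left
    rw [← h2, ← h3, h4 0 t le_rfl ht0 ht1, h4 s 1 hs0 hs1 le_rfl]
    exact ⟨⟨s, ⟨hs0, h⟩, rfl⟩, ⟨t, ⟨h, ht1⟩, rfl⟩⟩
  · right
    rw [← h2, ← h3, h4 0 s le_rfl hs0 hs1, h4 t 1 ht0 ht1 le_rfl]
    exact ⟨⟨t, ⟨ht0, h⟩, rfl⟩, ⟨s, ⟨h, hs1⟩, rfl⟩⟩

/-- antisymmetry -/
theorem I_anti {p y z : T} (hy : y ∈ I p z) (hz : z ∈ I p y) : y = z := by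
  obtain ⟨α, h1, h2, h3, h4⟩ := hT p z
  have h5 : I p z = α '' Icc 0 1 := by rw [← h2, ← h3, h4 0 1 le_rfl zero_le_one le_rfl]
  rw [h5] at hy
  obtain ⟨s, ⟨hs0, hs1⟩, rfl⟩ := hy
  rw [← h2, h4 0 s le_rfl hs0 hs1] at hz
  obtain ⟨u, ⟨hu0, hu1⟩, hu⟩ := hz
  have h6 := h4 u 1 hu0 (hu1.trans hs1) le_rfl
  rw [hu, h3, I_self] at h6
  have h7 : α s ∈ α '' Icc u 1 := ⟨s, ⟨hu1, hs1⟩, rfl⟩
  rw [← h6] at h7
  exact h7

/-- if y is below x then x lies beyond y -/
theorem I_mid {p x y z : T} (hz : z ∈ I p y) (hy : y ∈ I p x) : y ∈ I z x := by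
  have hzx : z ∈ I p x := I_sub (left_mem p x) hy hz
  rcases I_total hT hzx hy with ⟨-, h⟩ | ⟨h1, h2⟩
  · exact h
  · have := I_anti hT hz h1
    rw [this]
    exact left_mem y x

theorem I_low {p x z w : T} (hz : z ∈ I p x) (hw : w ∈ I z x) : z ∈ I p w := by
  have hwx : w ∈ I p x := I_sub hz (right_mem p x) hw
  rcases I_total hT hz hwx with ⟨h, -⟩ | ⟨h1, h2⟩
  · exact h
  · have h3 : w = z := by
      rw [I_comm z x] at hw
      rw [I_comm w x] at h2
      exact I_anti hT hw h2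
    rw [h3]
    exact right_mem p z

end

section

variable {T : Type u} [MetricSpace T]

/-- diameter of the interval -/
def dd (x y : T) : ℝ := diam (I x y)

theorem dd_comm (x y : T) : dd x y = dd y x := by unfold dd; rw [I_comm]

theorem dd_self (x : T) : dd x x = 0 := by unfold dd; rw [I_self, diam_singleton]

theorem dd_nonneg (x y : T) : 0 ≤ dd x y := diam_nonneg

variable (hT : Tr T)

include hT

theorem dist_le_dd (x y : T) : dist x y ≤ dd x y :=
  dist_le_diam_of_mem (I_comp hT x y).isBounded (left_mem x y) (right_mem x y)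

theorem dd_mono {x y a b : T} (ha : a ∈ I x y) (hb : b ∈ I x y) : dd a b ≤ dd x y :=
  diam_mono (I_sub ha hb) (I_comp hT x y).isBounded

theorem dd_triangle (x y z : T) : dd x y ≤ dd x z + dd z y :=
  (diam_mono (I_union hT x y z) ((I_comp hT x z).union (I_comp hT z y)).isBounded).trans
    (diam_union' ⟨z, right_mem x z, left_mem z y⟩)

/-- the branching point -/
theorem median (p x y : T) : ∃ m, m ∈ I p x ∧ m ∈ I p y ∧ m ∈ I x y := by
  obtain ⟨α, h1, h2, h3, h4⟩ := hT p x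
  set S : Set ℝ := Icc 0 1 ∩ α ⁻¹' (I x y) with hS
  have hSc : IsCompact S := isCompact_Icc.inter_right ((I_comp hT x y).isClosed.preimage h1)
  have hSn : S.Nonempty := ⟨1, ⟨zero_le_one, le_rfl⟩, by
    rw [mem_preimage, h3]; exact left_mem x y⟩
  obtain ⟨s, hs, hmin⟩ := hSc.exists_isLeast hSn
  obtain ⟨⟨hs0, hs1⟩, hsI⟩ := hs
  refine ⟨α s, ?_, ?_, hsI⟩
  · rw [← h2, ← h3, h4 0 1 le_rfl zero_le_one le_rfl]
    exact ⟨s, ⟨hs0, hs1⟩, rfl⟩
  · rcases hs0.eq_or_lt with h | h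
    · rw [← h, h2]
      exact left_mem p y
    · have hcl : closure (Ico 0 s) = Icc 0 s := closure_Ico h.ne
      have h5 : MapsTo α (Ico 0 s) (I p y) := by
        intro t ht
        have h6 : α t ∈ I p x := by
          rw [← h2, ← h3, h4 0 1 le_rfl zero_le_one le_rfl]
          exact ⟨t, ⟨ht.1, (ht.2.le.trans hs1)⟩, rfl⟩
        have h7 := I_union hT p x y h6
        rcases h7 with h7 | h7
        · exact h7
        · exfalso
          rw [I_comm] at h7
          have := hmin (⟨⟨ht.1, ht.2.le.trans hs1⟩, h7⟩ : t ∈ S)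
          linarith [ht.2]
      have h6 := h5.closure h1
      rw [hcl, (I_comp hT p y).isClosed.closure_eq] at h6
      exact h6 ⟨hs0, le_rfl⟩

omit hT in
/-- small steps of the parameter give small intervals -/
theorem unif {α : ℝ → T} (h1 : Continuous α)
    (h4 : ∀ s t : ℝ, 0 ≤ s → s ≤ t → t ≤ 1 → I (α s) (α t) = α '' Icc s t) {ε : ℝ}
    (hε : 0 < ε) : ∃ δ > 0, ∀ s ∈ Icc (0:ℝ) 1, ∀ t ∈ Icc (0:ℝ) 1, |s - t| < δ →
      dd (α s) (α t) < ε := by
  have huc := isCompact_Icc.uniformContinuousOn_of_continuous (h1.continuousOn (s := Icc (0:ℝ) 1))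
  rw [Metric.uniformContinuousOn_iff] at huc
  obtain ⟨δ, hδ, h⟩ := huc (ε / 2) (by linarith)
  have key : ∀ s ∈ Icc (0:ℝ) 1, ∀ t ∈ Icc (0:ℝ) 1, s ≤ t → |s - t| < δ → dd (α s) (α t) < ε := by
    intro s hs t ht hst hd
    have h2 : dd (α s) (α t) ≤ ε / 2 := by
      unfold dd
      rw [h4 s t hs.1 hst ht.2]
      apply diam_le_of_forall_dist_le (by linarith)
      rintro _ ⟨a, ha, rfl⟩ _ ⟨b, hb, rfl⟩
      apply le_of_lt
      apply h a ⟨hs.1.trans ha.1, ha.2.trans ht.2⟩ b ⟨hs.1.trans hb.1, hb.2.trans ht.2⟩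
      rw [Real.dist_eq, abs_lt]
      rw [abs_lt] at hd
      constructor <;> linarith [ha.1, ha.2, hb.1, hb.2]
    linarith
  refine ⟨δ, hδ, fun s hs t ht hd => ?_⟩
  rcases le_total s t with hst | hst
  · exact key s hs t ht hst hd
  · rw [dd_comm]
    rw [abs_sub_comm] at hd
    exact key t ht s hs hst hd

theorem abs_dd (u x y : T) : |dd u x - dd u y| ≤ dd x y := by
  rw [abs_le]
  constructor
  · have := dd_triangle hT u y x
    linarith
  · have := dd_triangle hT u x y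
    rw [dd_comm y x] at this
    linarith

/-- the first point at distance R -/
theorem exists_next {u x : T} {R : ℝ} (hR : 0 < R) (h : R ≤ dd u x) :
    ∃ w ∈ I u x, dd u w = R ∧ ∀ z ∈ I u w, z ≠ w → dd u z < R := by
  obtain ⟨α, h1, h2, h3, h4⟩ := hT u x
  have hg : ContinuousOn (fun t => dd u (α t)) (Icc 0 1) := by
    rw [Metric.continuousOn_iff]
    intro t ht ε hε
    obtain ⟨δ, hδ, hd⟩ := unif h1 h4 hε
    refine ⟨δ, hδ, fun s hs hst => ?_⟩
    rw [Real.dist_eq] at hst ⊢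
    exact (abs_dd hT u _ _).trans_lt (hd s hs t ht hst)
  set S : Set ℝ := Icc 0 1 ∩ (fun t => dd u (α t)) ⁻¹' (Ici R) with hS
  have hSc : IsCompact S :=
    isCompact_Icc.of_isClosed_subset (hg.preimage_isClosed_of_isClosed isClosed_Icc isClosed_Ici)
      inter_subset_left
  have hSn : S.Nonempty := ⟨1, ⟨zero_le_one, le_rfl⟩, by
    rw [mem_preimage, h3]; exact h⟩
  obtain ⟨s, ⟨⟨hs0, hs1⟩, hsI⟩, hmin⟩ := hSc.exists_isLeast hSn
  have hlt : ∀ t, 0 ≤ t → t < s → dd u (α t) < R := by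
    intro t ht hts
    by_contra hno
    push Not at hno
    have := hmin (⟨⟨ht, hts.le.trans hs1⟩, hno⟩ : t ∈ S)
    linarith
  have hs : 0 < s := by
    rcases hs0.eq_or_lt with h0 | h0
    · rw [← h0, mem_preimage, h2, dd_self] at hsI
      exact absurd hsI (not_le.2 hR)
    · exact h0
  refine ⟨α s, ?_, ?_, ?_⟩
  · rw [← h3]
    nth_rewrite 1 [← h2]
    rw [h4 0 1 le_rfl zero_le_one le_rfl]
    exact ⟨s, ⟨hs0, hs1⟩, rfl⟩
  · apply le_antisymm _ hsI
    apply le_of_forall_pos_le_add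
    intro ε hε
    obtain ⟨δ, hδ, hd⟩ := unif h1 h4 hε
    set t := max 0 (s - δ / 2) with ht
    have ht0 : 0 ≤ t := le_max_left _ _
    have hts : t < s := max_lt hs (by linarith)
    have h5 := hlt t ht0 hts
    have h6 := hd t ⟨ht0, hts.le.trans hs1⟩ s ⟨hs0, hs1⟩ (by
      rw [abs_lt]
      constructor
      · linarith [le_max_right 0 (s - δ / 2)]
      · linarith)
    have h7 := dd_triangle hT u (α s) (α t)
    linarith
  · intro z hz hzw
    rw [← h2] at hz
    rw [h2, ← h2, h4 0 s le_rfl hs0 hs1] at hz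
    obtain ⟨t, ⟨ht0, ht1⟩, rfl⟩ := hz
    apply hlt t ht0
    rcases ht1.eq_or_lt with h | h
    · exact absurd (by rw [h]) hzw
    · exact h

theorem next_unique {u x w w' : T} {R : ℝ} (hw : w ∈ I u x) (hw' : w' ∈ I u x)
    (h1 : dd u w = R) (h2 : ∀ z ∈ I u w, z ≠ w → dd u z < R)
    (h1' : dd u w' = R) (h2' : ∀ z ∈ I u w', z ≠ w' → dd u z < R) : w = w' := by
  by_contra hne
  rcases I_total hT hw hw' with ⟨h, -⟩ | ⟨h, -⟩
  · have := h2' w h hne
    linarith
  · have := h2 w' h (Ne.symm hne)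
    linarith

end

end

end Q192.BT
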