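import Mathlib
import Pool.Agent.Q192.BT.Tree
import Pool.Agent.W52.PCt.HM2
import Pool.Agent.W240.PC.HM1
import Pool.Agent.W366.PC.Arc1
import Pool.Agent.W366.PC.Arc2

/-!
# Unique arcs give monotone intervals
-/

set_option autoImplicit false

namespace Q192.BT

open Set Topology Metric

noncomputable section

universe u

/-- A is a Jordan arc with the end points x and y -/
def IsArc {X : Type u} [TopologicalSpace X] (A : Set X) (x y : X) : Prop :=
  ∃ h : unitInterval ≃ₜ A, (h 0 : X) = x ∧ (h 1 : X) = y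

theorem isArc_image {X : Type u} [MetricSpace X] {β : ℝ → X} (hβ : Continuous β) {a b : ℝ}
    (hab : a < b) (hi : InjOn β (Icc a b)) : IsArc (β '' Icc a b) (β a) (β b) := by
  set φ : unitInterval → X := fun t => β (a + t * (b - a)) with hφ
  have hc : Continuous φ := by
    apply hβ.comp
    fun_prop
  have hmem : ∀ t : unitInterval, a + t * (b - a) ∈ Icc a b := by
    intro t
    have h1 := t.2.1
    have h2 := t.2.2
    constructor <;> nlinarith
  have hinj : Function.Injective φ := by
    intro s t hst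
    have h1 := hi (hmem s) (hmem t) hst
    have h2 : (s : ℝ) * (b - a) = t * (b - a) := by linarith
    exact Subtype.ext (mul_right_cancel₀ (by linarith : b - a ≠ 0) h2)
  have hr : range φ = β '' Icc a b := by
    ext z
    constructor
    · rintro ⟨t, rfl⟩
      exact ⟨_, hmem t, rfl⟩
    · rintro ⟨s, hs, rfl⟩
      have hba : 0 < b - a := by linarith
      refine ⟨⟨(s - a) / (b - a), div_nonneg (by linarith [hs.1]) hba.le,
        (div_le_one hba).2 (by linarith [hs.2])⟩, ?_⟩
      simp only [hφ]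
      rw [div_mul_cancel₀ _ hba.ne']
      congr 1
      ring
  have key : IsArc (range φ) (β a) (β b) := by
    refine ⟨(hc.isClosedEmbedding hinj).isEmbedding.toHomeomorph, ?_, ?_⟩
    · change φ 0 = β a
      simp [hφ]
    · change φ 1 = β b
      simp [hφ]
  rwa [hr] at key

theorem exists_arc_in {X : Type} [MetricSpace X] {U : Set X} {x y : X} (hxy : x ≠ y)
    (h : JoinedIn U x y) : ∃ A ⊆ U, IsArc A x y := by
  obtain ⟨γ, hγ⟩ := h
  set σ : ℝ → X := fun t => γ.extend t with hσ
  have hσc : Continuous σ := γ.continuous_extend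
  have hσU : ∀ t, σ t ∈ U := fun t => by
    simp only [hσ, Path.extend, IccExtend, Function.comp_apply]
    exact hγ _
  have h0 : σ 0 = x := γ.extend_zero
  have h1 : σ 1 = y := γ.extend_one
  obtain ⟨m, hm1, hm2, hm3, hm4, hm5, hm6⟩ := Pool.Agent.W366.PC.Arc1.arc1 X σ hσc
  obtain ⟨α, ψ, θ, k1, k2, k3, k4, k5, k6, k7⟩ := Pool.Agent.W366.PC.Arc2.arc2 X
    (fun t => σ (m t)) hm5 (by rw [hm3, hm4, h0, h1]; exact hxy) hm6
  refine ⟨α '' Icc 0 1, ?_, ?_⟩
  · rintro _ ⟨t, ht, rfl⟩
    rw [(k7 t ht).2]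
    exact hσU _
  · have hi : InjOn α (Icc 0 1) := by
      intro s hs t ht hst
      rw [← k3 s hs, ← k3 t ht, hst]
    have := isArc_image k1 zero_lt_one hi
    rw [k4, k5] at this
    simp only [hm3, hm4, h0, h1] at this
    exact this

theorem lpc (X : Type) [MetricSpace X] [CompactSpace X] [ConnectedSpace X]
    [LocallyConnectedSpace X] : LocallyPathConnectedSpace X := by
  obtain ⟨q, hq, hqs⟩ := Pool.Agent.W52.PCt.HM2.hm2 Pool.Agent.W240.PC.hm1 X
  have h1 : IsQuotientMap q := hq.isClosedMap.isQuotientMap hq hqs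
  have h2 : IsQuotientMap (projIcc (0:ℝ) 1 zero_le_one) := by
    exact IsQuotientMap.of_inverse continuous_subtype_val continuous_projIcc
      fun x => projIcc_val zero_le_one x
  exact (h1.comp h2).locallyPathConnectedSpace

/-- unique arcs give monotone intervals -/
theorem tr_of_arcs (X : Type) [MetricSpace X] [CompactSpace X] [ConnectedSpace X]
    [LocallyConnectedSpace X] (harc : ∀ x y : X, x ≠ y → ∃! A : Set X, IsArc A x y) : Tr X := by
  haveI := lpc X
  intro x y
  by_cases hxy : x = y
  · subst hxy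
    refine ⟨fun _ => x, continuous_const, rfl, rfl, fun s t _ hst _ => ?_⟩
    rw [I_self]
    ext z
    simp only [mem_singleton_iff, mem_image]
    exact ⟨fun h => ⟨s, ⟨le_rfl, hst⟩, h.symm⟩, fun ⟨_, _, h⟩ => h.symm⟩
  obtain ⟨A, ⟨h, h0, h1⟩, -⟩ := harc x y hxy
  set α : ℝ → X := fun t => h (projIcc 0 1 zero_le_one t) with hα
  have hαc : Continuous α := continuous_subtype_val.comp (h.continuous.comp continuous_projIcc)
  have hinj : InjOn α (Icc 0 1) := by
    intro s hs t ht hst
    have h2 := h.injective (Subtype.ext hst)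
    rw [projIcc_of_mem _ hs, projIcc_of_mem _ ht] at h2
    exact congrArg Subtype.val h2
  have ha0 : α 0 = x := by
    simp only [hα]
    rw [projIcc_left]
    exact h0
  have ha1 : α 1 = y := by
    simp only [hα]
    rw [projIcc_right]
    exact h1
  refine ⟨α, hαc, ha0, ha1, fun s t hs hst ht => ?_⟩
  rcases hst.eq_or_lt with heq | hlt
  · rw [heq, I_self, Icc_self, image_singleton]
  apply Subset.antisymm
  · intro z hz
    exact hz _ (isPreconnected_Icc.image _ hαc.continuousOn) ⟨s, ⟨le_rfl, hst⟩, rfl⟩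
      ⟨t, ⟨hst, le_rfl⟩, rfl⟩
  · rintro _ ⟨u, ⟨hu1, hu2⟩, rfl⟩ E hE hs' ht'
    by_contra hno
    have hsm : s ∈ Icc (0:ℝ) 1 := ⟨hs, hst.trans ht⟩
    have htm : t ∈ Icc (0:ℝ) 1 := ⟨hs.trans hst, ht⟩
    have hum : u ∈ Icc (0:ℝ) 1 := ⟨hs.trans hu1, hu2.trans ht⟩
    have hne : α s ≠ α t := fun h => hlt.ne (hinj hsm htm h)
    have hEz : E ⊆ {α u}ᶜ := by
      intro w hw hwu
      rw [mem_singleton_iff] at hwu
      exact hno (hwu ▸ hw)
    set U := connectedComponentIn {α u}ᶜ (α s) with hU
    have hop : IsOpen U := (isOpen_compl_singleton (x := α u)).connectedComponentIn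
    have hsub : E ⊆ U := hE.subset_connectedComponentIn hs' hEz
    have hUc : IsConnected U := isConnected_connectedComponentIn_iff.2 (hEz hs')
    have hUp : IsPathConnected U := (hop.isConnected_iff_isPathConnected).1 hUc
    obtain ⟨A', hA'U, hA'⟩ := exists_arc_in hne (hUp.joinedIn _ (hsub hs') _ (hsub ht'))
    have h2 : A' = α '' Icc s t :=
      (harc _ _ hne).unique hA' (isArc_image hαc hlt (hinj.mono (Icc_subset_Icc hs ht)))
    have h3 : α u ∈ A' := by
      rw [h2]
      exact ⟨u, ⟨hu1, hu2⟩, rfl⟩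
    exact connectedComponentIn_subset _ _ (hA'U h3) rfl

theorem tr_homeo {X : Type} {Y : Type u} [MetricSpace X] [MetricSpace Y] (e : X ≃ₜ Y)
    (h : Tr X) : Tr Y := by
  have key : ∀ a b : X, I (e a) (e b) = e '' I a b := by
    intro a b
    apply Subset.antisymm
    · intro z hz
      refine ⟨e.symm z, ?_, e.apply_symm_apply z⟩
      intro E hE ha hb
      have := hz (e '' E) (hE.image _ e.continuous.continuousOn) ⟨a, ha, rfl⟩ ⟨b, hb, rfl⟩
      obtain ⟨w, hw, hwz⟩ := this
      rw [← hwz, e.symm_apply_apply]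
      exact hw
    · rintro _ ⟨w, hw, rfl⟩ E hE ha hb
      have h1 : IsPreconnected (e.symm '' E) := hE.image _ e.symm.continuous.continuousOn
      obtain ⟨v, hv, hvw⟩ := hw _ h1 ⟨e a, ha, e.symm_apply_apply a⟩ ⟨e b, hb, e.symm_apply_apply b⟩
      rw [← hvw, e.apply_symm_apply]
      exact hv
  intro x y
  obtain ⟨α, h1, h2, h3, h4⟩ := h (e.symm x) (e.symm y)
  refine ⟨fun t => e (α t), e.continuous.comp h1, by simp [h2], by simp [h3],
    fun s t hs hst ht => ?_⟩
  rw [key, h4 s t hs hst ht, image_image]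

/-- arbitrary universe -/
theorem tr_univ (Y : Type u) [MetricSpace Y] [CompactSpace Y] [ConnectedSpace Y]
    [LocallyConnectedSpace Y] (harc : ∀ x y : Y, x ≠ y → ∃! A : Set Y, IsArc A x y) : Tr Y := by
  haveI : TopologicalSpace.SeparableSpace Y := inferInstance
  obtain ⟨g, hg⟩ := KuratowskiEmbedding.exists_isometric_embedding Y
  set e : Y ≃ₜ range g := hg.isEmbedding.toHomeomorph with he
  haveI : CompactSpace (range g) := e.compactSpace
  haveI : ConnectedSpace (range g) := e.surjective.connectedSpace e.continuous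
  haveI : LocallyConnectedSpace (range g) := e.symm.isOpenEmbedding.locallyConnectedSpace
  apply tr_homeo e.symm
  apply tr_of_arcs
  have push : ∀ (A : Set Y) (x y : Y), IsArc A x y → IsArc (e '' A) (e x) (e y) := by
    rintro A x y ⟨h, h0, h1⟩
    refine ⟨h.trans (e.image A), ?_, ?_⟩
    · change e (h 0 : Y) = e x
      rw [h0]
    · change e (h 1 : Y) = e y
      rw [h1]
  have pull : ∀ (A : Set (range g)) (x y : range g), IsArc A x y →
      IsArc (e.symm '' A) (e.symm x) (e.symm y) := by
    rintro A x y ⟨h, h0, h1⟩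
    refine ⟨h.trans (e.symm.image A), ?_, ?_⟩
    · change e.symm (h 0 : range g) = e.symm x
      rw [h0]
    · change e.symm (h 1 : range g) = e.symm y
      rw [h1]
  intro x y hxy
  obtain ⟨A, hA, huniq⟩ := harc (e.symm x) (e.symm y) (fun h => hxy (e.symm.injective h))
  refine ⟨e '' A, ?_, ?_⟩
  · have := push A _ _ hA
    rwa [e.apply_symm_apply, e.apply_symm_apply] at this
  · intro A' hA'
    have := huniq _ (pull A' x y hA')
    rw [← this, image_image]
    simp

end

end Q192.BT
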