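import Mathlib

/-!
# Pointers along a chain
-/

set_option autoImplicit false

namespace Q192.BT

open Classical

noncomputable section

/-- the scales -/
def R (r : ℝ) (k : ℕ) : ℝ := r * 100 ^ k

/-- sign -/
def sg (x : ℝ) : ℝ := if 0 ≤ x then 1 else -1

/-- is the time n a vertex of level k, given the last vertices a -/
def isv (r : ℝ) (D : ℕ → ℕ → ℝ) (a : ℕ → ℕ) (n : ℕ) : ℕ → Prop
  | 0 => True
  | k + 1 => isv r D a n k ∧ R r (k + 1) ≤ D (a (k + 1)) n

/-- last vertices and pointers of all levels -/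
def st (r : ℝ) (D : ℕ → ℕ → ℝ) : ℕ → (ℕ → ℕ) × (ℕ → ℝ)
  | 0 => (fun _ => 0, fun _ => 0)
  | n + 1 =>
    (fun k => if isv r D (st r D n).1 (n + 1) k then n + 1 else (st r D n).1 k,
     fun k => if isv r D (st r D n).1 (n + 1) k then
        (st r D n).2 k - sg ((st r D n).2 k - (st r D n).2 (k + 1)) * D ((st r D n).1 k) (n + 1)
      else (st r D n).2 k)

/-- last vertex -/
def A (r : ℝ) (D : ℕ → ℕ → ℝ) (n k : ℕ) : ℕ := (st r D n).1 k

/-- pointer -/
def T (r : ℝ) (D : ℕ → ℕ → ℝ) (n k : ℕ) : ℝ := (st r D n).2 k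

/-- the time n + 1 is a vertex of level k -/
def V (r : ℝ) (D : ℕ → ℕ → ℝ) (n k : ℕ) : Prop := isv r D (A r D n) (n + 1) k

structure Hyp (r : ℝ) (D : ℕ → ℕ → ℝ) (N : ℕ) : Prop where
  pos : 0 < r
  self : ∀ n ≤ N, D n n = 0
  mono : ∀ m m' n' n, m ≤ m' → m' ≤ n' → n' ≤ n → n ≤ N → D m' n' ≤ D m n
  sub : ∀ l m n, l ≤ m → m ≤ n → n ≤ N → D l n ≤ D l m + D m n
  step : ∀ n < N, D n (n + 1) = r

section

variable {r : ℝ} {D : ℕ → ℕ → ℝ} {N : ℕ}

theorem A_zero (k : ℕ) : A r D 0 k = 0 := rfl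

theorem T_zero (k : ℕ) : T r D 0 k = 0 := rfl

theorem V_zero (n : ℕ) : V r D n 0 := trivial

theorem V_succ {n k : ℕ} : V r D n (k + 1) ↔ V r D n k ∧ R r (k + 1) ≤ D (A r D n (k + 1)) (n + 1) :=
  Iff.rfl

theorem A_of_V {n k : ℕ} (h : V r D n k) : A r D (n + 1) k = n + 1 := if_pos h

theorem A_of_not {n k : ℕ} (h : ¬ V r D n k) : A r D (n + 1) k = A r D n k := if_neg h

theorem T_of_V {n k : ℕ} (h : V r D n k) : T r D (n + 1) k =
    T r D n k - sg (T r D n k - T r D n (k + 1)) * D (A r D n k) (n + 1) := if_pos h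

theorem T_of_not {n k : ℕ} (h : ¬ V r D n k) : T r D (n + 1) k = T r D n k := if_neg h

theorem A_le (n k : ℕ) : A r D n k ≤ n := by
  induction n with
  | zero => exact le_of_eq (A_zero k)
  | succ n ih =>
    by_cases h : V r D n k
    · rw [A_of_V h]
    · rw [A_of_not h]; omega

theorem A_at_zero (n : ℕ) : A r D n 0 = n := by
  cases n with
  | zero => rfl
  | succ n => exact A_of_V (V_zero n)

theorem R_pos (hr : 0 < r) (k : ℕ) : 0 < R r k := by unfold R; positivity

theorem R_succ (k : ℕ) : R r (k + 1) = 100 * R r k := by unfold R; ring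

/-- the maximal length of the edges -/
def E (r : ℝ) : ℕ → ℝ
  | 0 => r
  | k + 1 => E r k + R r (k + 1)

theorem E_le (hr : 0 < r) (k : ℕ) : E r k ≤ 100 / 99 * R r k := by
  induction k with
  | zero => simp only [E, R, pow_zero]; linarith
  | succ k ih =>
    simp only [E]
    rw [R_succ]
    linarith

theorem r_le_E (hr : 0 < r) (k : ℕ) : r ≤ E r k := by
  induction k with
  | zero => exact le_refl _
  | succ k ih =>
    have := R_pos hr (k + 1)
    simp only [E]
    linarith

theorem E_pos (hr : 0 < r) (k : ℕ) : 0 < E r k := hr.trans_le (r_le_E hr k)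

theorem A_mono (H : Hyp r D N) {n : ℕ} (hn : n ≤ N) (k : ℕ) :
    A r D n (k + 1) ≤ A r D n k ∧ D (A r D n (k + 1)) (A r D n k) ≤ R r (k + 1) := by
  induction n with
  | zero =>
    rw [A_zero, A_zero, H.self 0 (Nat.zero_le _)]
    exact ⟨le_rfl, (R_pos H.pos _).le⟩
  | succ n ih =>
    have ih := ih (by omega)
    by_cases h : V r D n k
    · by_cases h1 : V r D n (k + 1)
      · rw [A_of_V h, A_of_V h1, H.self _ hn]
        exact ⟨le_rfl, (R_pos H.pos _).le⟩
      · rw [A_of_V h, A_of_not h1]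
        refine ⟨(A_le n (k + 1)).trans (Nat.le_succ n), ?_⟩
        rw [V_succ] at h1
        push Not at h1
        exact (h1 h).le
    · have h1 : ¬ V r D n (k + 1) := fun h1 => h (V_succ.1 h1).1
      rw [A_of_not h, A_of_not h1]
      exact ih

theorem D_A (H : Hyp r D N) {n : ℕ} (hn : n ≤ N) (k : ℕ) : D (A r D n k) n ≤ E r k - r := by
  induction k with
  | zero =>
    rw [A_at_zero, H.self n hn]
    simp [E]
  | succ k ih =>
    obtain ⟨h1, h2⟩ := A_mono H hn k
    have h3 := H.sub _ _ _ h1 (A_le n k) hn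
    simp only [E]
    linarith

theorem D_edge (H : Hyp r D N) {n : ℕ} (hn : n < N) (k : ℕ) : D (A r D n k) (n + 1) ≤ E r k := by
  have h1 := D_A H hn.le k
  have h2 := H.sub (A r D n k) n (n + 1) (A_le n k) (Nat.le_succ n) hn
  have h3 := H.step n hn
  linarith

theorem D_nonneg (H : Hyp r D N) {m n : ℕ} (hmn : m ≤ n) (hn : n ≤ N) : 0 ≤ D m n := by
  have := H.mono m m m n le_rfl le_rfl hmn hn
  rwa [H.self m (hmn.trans hn)] at this

theorem D_lower (H : Hyp r D N) {n k : ℕ} (hn : n < N) (h : V r D n k) :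
    R r k ≤ D (A r D n k) (n + 1) := by
  cases k with
  | zero =>
    rw [A_at_zero, H.step n hn]
    simp [R]
  | succ k => exact (V_succ.1 h).2

theorem move_abs {t g d : ℝ} (hd : 0 ≤ d) : |t - sg (t - g) * d - t| = d := by
  unfold sg
  split_ifs with h
  · rw [show t - 1 * d - t = -d by ring, abs_neg, abs_of_nonneg hd]
  · rw [show t - -1 * d - t = d by ring, abs_of_nonneg hd]

theorem move_to {t g d : ℝ} (hd : 0 ≤ d) : |t - sg (t - g) * d - g| ≤ max d (|t - g| - d) := by
  unfold sg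
  split_ifs with h
  · rw [abs_of_nonneg h, show t - 1 * d - g = (t - g) - d by ring]
    rcases le_total d (t - g) with h1 | h1
    · rw [abs_of_nonneg (by linarith)]
      exact le_max_right _ _
    · rw [abs_of_nonpos (by linarith)]
      exact le_trans (by linarith) (le_max_left _ _)
  · push Not at h
    rw [abs_of_neg h, show t - -1 * d - g = (t - g) + d by ring]
    rcases le_total d (-(t - g)) with h1 | h1
    · rw [abs_of_nonpos (by linarith)]
      exact le_trans (by linarith) (le_max_right _ _)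
    · rw [abs_of_nonneg (by linarith)]
      exact le_trans (by linarith) (le_max_left _ _)

theorem gap_step (H : Hyp r D N) {n k : ℕ} (hn : n < N) (h : V r D n k)
    (ih : |T r D n k - T r D n (k + 1)| ≤
      max (E r k) (E r k + E r (k + 1) - D (A r D n (k + 1)) (A r D n k))) :
    |T r D (n + 1) k - T r D n (k + 1)| ≤
      max (E r k) (E r k + E r (k + 1) - D (A r D n (k + 1)) (n + 1)) := by
  rw [T_of_V h]
  have hd : 0 ≤ D (A r D n k) (n + 1) := D_nonneg H ((A_le n k).trans (Nat.le_succ n)) hn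
  refine (move_to hd).trans ?_
  have h1 := D_edge H hn k
  have h2 := H.sub _ _ _ (A_mono H hn.le k).1 ((A_le n k).trans (Nat.le_succ n)) hn
  refine max_le (h1.trans (le_max_left _ _)) ?_
  rcases le_max_iff.1 ih with h3 | h3
  · exact le_trans (by linarith) (le_max_left _ _)
  · refine le_trans ?_ (le_max_right _ _)
    simp only [Nat.succ_eq_add_one] at h2
    linarith

theorem gap (H : Hyp r D N) {n : ℕ} (hn : n ≤ N) (k : ℕ) : |T r D n k - T r D n (k + 1)| ≤
    max (E r k) (E r k + E r (k + 1) - D (A r D n (k + 1)) (A r D n k)) := by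
  induction n with
  | zero =>
    rw [T_zero, T_zero, sub_zero, abs_zero]
    exact (E_pos H.pos k).le.trans (le_max_left _ _)
  | succ n ih =>
    have ih := ih (by omega)
    by_cases h : V r D n k
    · have h2 := gap_step H hn h ih
      by_cases h1 : V r D n (k + 1)
      · rw [A_of_V h, A_of_V h1, H.self _ hn]
        have hd : 0 ≤ D (A r D n (k + 1)) (n + 1) :=
          D_nonneg H ((A_le n (k + 1)).trans (Nat.le_succ n)) hn
        have h3 : |T r D (n + 1) (k + 1) - T r D n (k + 1)| = D (A r D n (k + 1)) (n + 1) := by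
          rw [T_of_V h1]
          exact move_abs hd
        have h4 := D_edge H hn (k + 1)
        have h5 : |T r D (n + 1) k - T r D (n + 1) (k + 1)| ≤
            |T r D (n + 1) k - T r D n (k + 1)| + |T r D (n + 1) (k + 1) - T r D n (k + 1)| := by
          rw [abs_sub_comm (T r D (n + 1) (k + 1))]
          exact abs_sub_le _ _ _
        refine le_trans ?_ (le_max_right _ _)
        rcases le_max_iff.1 h2 with h6 | h6 <;> linarith
      · rw [A_of_V h, A_of_not h1, T_of_not h1]
        exact h2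
    · have h1 : ¬ V r D n (k + 1) := fun h1 => h (V_succ.1 h1).1
      rw [A_of_not h, A_of_not h1, T_of_not h, T_of_not h1]
      exact ih

theorem gap_le (H : Hyp r D N) {n : ℕ} (hn : n ≤ N) (k : ℕ) :
    |T r D n k - T r D n (k + 1)| ≤ E r k + E r (k + 1) := by
  refine (gap H hn k).trans (max_le ?_ ?_)
  · linarith [E_pos H.pos (k + 1)]
  · linarith [D_nonneg H (A_mono H hn k).1 ((A_le n k).trans hn)]

theorem total (H : Hyp r D N) {n : ℕ} (hn : n ≤ N) (k : ℕ) :
    |T r D n 0 - T r D n k| ≤ 3 * R r k := by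
  induction k with
  | zero =>
    rw [sub_self, abs_zero]
    linarith [R_pos H.pos 0]
  | succ k ih =>
    have h1 := gap_le H hn k
    have h2 := abs_sub_le (T r D n 0) (T r D n k) (T r D n (k + 1))
    have h3 := E_le H.pos k
    have h4 := E_le H.pos (k + 1)
    have h5 := R_pos H.pos k
    rw [R_succ] at h4 ⊢
    linarith

/-- at a vertex of level k + 1 the final pointer is close to the old value of level k + 1 -/
theorem lag (H : Hyp r D N) {n k : ℕ} (hn : n < N) (h : V r D n (k + 1)) :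
    |T r D (n + 1) 0 - T r D n (k + 1)| ≤ 6 / 100 * R r (k + 1) := by
  have h1 := gap_step H hn (V_succ.1 h).1 (gap H hn.le k)
  have h2 := (V_succ.1 h).2
  have h3 : |T r D (n + 1) k - T r D n (k + 1)| ≤ 2 * E r k := by
    refine h1.trans (max_le ?_ ?_)
    · linarith [E_pos H.pos k]
    · simp only [E]
      linarith
  have h4 := total H hn k
  have h5 := E_le H.pos k
  have h6 := abs_sub_le (T r D (n + 1) 0) (T r D (n + 1) k) (T r D n (k + 1))
  have h7 := R_pos H.pos k
  rw [R_succ]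
  linarith

theorem few (H : Hyp r D N) (k : ℕ) {m n : ℕ} (hmn : m ≤ n) (hn : n ≤ N) (hD : D m n < R r k) :
    (A r D n k = A r D m k ∧ T r D n k = T r D m k) ∨
      (m < A r D n k ∧ |T r D n k - T r D m k| ≤ E r k) := by
  induction n, hmn using Nat.le_induction with
  | base => left; exact ⟨rfl, rfl⟩
  | succ n hmn ih =>
    have hn' : n < N := hn
    have hD' : D m n < R r k := (H.mono m m n (n + 1) le_rfl hmn (Nat.le_succ n) hn).trans_lt hD
    have ih := ih hn'.le hD'
    by_cases h : V r D n k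
    · rcases ih with ⟨h1, h2⟩ | ⟨h1, h2⟩
      · right
        rw [A_of_V h]
        refine ⟨by omega, ?_⟩
        rw [T_of_V h, ← h2, move_abs (D_nonneg H ((A_le n k).trans (Nat.le_succ n)) hn)]
        exact D_edge H hn' k
      · exfalso
        have h3 := D_lower H hn' h
        have h4 := H.mono m _ (n + 1) (n + 1) h1.le ((A_le n k).trans (Nat.le_succ n)) le_rfl hn
        linarith
    · rw [A_of_not h, T_of_not h]
      exact ih

/-- upper bound -/
theorem upper (H : Hyp r D N) (k : ℕ) {m n : ℕ} (hmn : m ≤ n) (hn : n ≤ N) (hD : D m n < R r k) :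
    |T r D n 0 - T r D m 0| ≤ 8 * R r k := by
  have h1 := total H hn k
  have h2 := total H (hmn.trans hn) k
  have h3 : |T r D n k - T r D m k| ≤ E r k := by
    rcases few H k hmn hn hD with ⟨-, h⟩ | ⟨-, h⟩
    · rw [h, sub_self, abs_zero]
      exact (E_pos H.pos k).le
    · exact h
  have h4 := E_le H.pos k
  have h5 := R_pos H.pos k
  have h6 := abs_sub_le (T r D n 0) (T r D n k) (T r D m 0)
  have h7 := abs_sub_le (T r D n k) (T r D m k) (T r D m 0)
  rw [abs_sub_comm (T r D m k)] at h7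
  linarith

theorem const (k : ℕ) {m n : ℕ} (hmn : m ≤ n)
    (h : ∀ i, m ≤ i → i < n → ¬ V r D i k) : A r D n k = A r D m k ∧ T r D n k = T r D m k := by
  induction n, hmn using Nat.le_induction with
  | base => exact ⟨rfl, rfl⟩
  | succ n hmn ih =>
    have ih := ih fun i h1 h2 => h i h1 (by omega)
    have h1 := h n hmn (Nat.lt_succ_self n)
    rw [A_of_not h1, T_of_not h1]
    exact ih

/-- lower bound -/
theorem lower (H : Hyp r D N) (k : ℕ) {m n : ℕ} (hmn : m ≤ n) (hn : n ≤ N)
    (hD : 4 * R r (k + 1) ≤ D m n) :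
    ∃ w w', m < w ∧ w ≤ n ∧ m < w' ∧ w' ≤ n ∧
      R r (k + 1) / 2 ≤ |T r D w 0 - T r D w' 0| := by
  have hR := R_pos H.pos (k + 1)
  have hE := E_le H.pos (k + 1)
  -- the first vertex
  have h1 : ∃ i, m ≤ i ∧ i < n ∧ V r D i (k + 1) := by
    by_contra hno
    push Not at hno
    obtain ⟨h2, -⟩ := const (k + 1) hmn fun i h1 h2 => hno i h1 h2
    have h3 := D_A H hn (k + 1)
    have h4 := H.mono _ m n n (h2.trans_le (A_le m (k + 1))) hmn le_rfl hn
    linarith [H.pos]
  obtain ⟨hi1, hi2, hi3⟩ := Nat.find_spec h1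
  have hi4 : ∀ j, m ≤ j → j < Nat.find h1 → ¬ V r D j (k + 1) := by
    intro j hj1 hj2 hj3
    exact Nat.find_min h1 hj2 ⟨hj1, hj2.trans hi2, hj3⟩
  generalize Nat.find h1 = i at hi1 hi2 hi3 hi4
  obtain ⟨hc1, -⟩ := const (k + 1) hi1 fun j hj1 hj2 => hi4 j hj1 hj2
  have hmi : D m (i + 1) ≤ E r (k + 1) := by
    have h2 := D_edge H (lt_of_lt_of_le hi2 hn) (k + 1)
    have h3 := H.mono (A r D i (k + 1)) m (i + 1) (i + 1) (hc1.trans_le (A_le m (k + 1)))
      (by omega) le_rfl (by omega)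
    linarith
  -- the second vertex
  have h1' : ∃ j, i + 1 ≤ j ∧ j < n ∧ V r D j (k + 1) := by
    by_contra hno
    push Not at hno
    obtain ⟨h2, -⟩ := const (k + 1) (show i + 1 ≤ n by omega) fun i h1 h2 => hno i h1 h2
    have h3 := D_A H hn (k + 1)
    rw [h2, A_of_V hi3] at h3
    have h4 := H.sub m (i + 1) n (by omega) (by omega) hn
    linarith [H.pos]
  obtain ⟨hj1, hj2, hj3⟩ := Nat.find_spec h1'
  have hj4 : ∀ j, i + 1 ≤ j → j < Nat.find h1' → ¬ V r D j (k + 1) := by
    intro j hj1 hj2' hj3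
    exact Nat.find_min h1' hj2' ⟨hj1, hj2'.trans hj2, hj3⟩
  generalize Nat.find h1' = j at hj1 hj2 hj3 hj4
  obtain ⟨-, hc2⟩ := const (k + 1) hj1 fun l hl1 hl2 => hj4 l hl1 hl2
  refine ⟨i + 1, j + 1, by omega, by omega, by omega, by omega, ?_⟩
  have hiN : i < N := lt_of_lt_of_le hi2 hn
  have hjN : j < N := lt_of_lt_of_le hj2 hn
  have l1 := lag H hiN hi3
  have l2 := lag H hjN hj3
  rw [hc2] at l2
  have l3 : |T r D (i + 1) (k + 1) - T r D i (k + 1)| = D (A r D i (k + 1)) (i + 1) := by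
    rw [T_of_V hi3]
    exact move_abs (D_nonneg H ((A_le i (k + 1)).trans (Nat.le_succ i)) hiN)
  have l4 := D_lower H hiN hi3
  have l5 := abs_sub_le (T r D (i + 1) (k + 1)) (T r D (j + 1) 0) (T r D i (k + 1))
  have l6 := abs_sub_le (T r D (j + 1) 0) (T r D (i + 1) 0) (T r D i (k + 1))
  rw [abs_sub_comm (T r D (i + 1) (k + 1)) (T r D (j + 1) 0)] at l5
  rw [abs_sub_comm (T r D (j + 1) 0) (T r D (i + 1) 0)] at l6
  linarith

end

theorem st_congr {r : ℝ} {D D' : ℕ → ℕ → ℝ} {n : ℕ}
    (h : ∀ i j, i ≤ j → j ≤ n → D i j = D' i j) : st r D n = st r D' n := by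
  induction n with
  | zero => rfl
  | succ n ih =>
    have ih := ih fun i j h1 h2 => h i j h1 (by omega)
    have h1 : ∀ k, isv r D (st r D n).1 (n + 1) k ↔ isv r D' (st r D' n).1 (n + 1) k := by
      intro k
      induction k with
      | zero => exact Iff.rfl
      | succ k ihk =>
        have h2 : D ((st r D n).1 (k + 1)) (n + 1) = D' ((st r D' n).1 (k + 1)) (n + 1) := by
          rw [← ih]
          exact h _ _ ((A_le n (k + 1)).trans (Nat.le_succ n)) le_rfl
        simp only [isv]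
        rw [ihk, h2]
    have h2 : ∀ k, D ((st r D n).1 k) (n + 1) = D' ((st r D' n).1 k) (n + 1) := by
      intro k
      rw [← ih]
      exact h _ _ ((A_le n k).trans (Nat.le_succ n)) le_rfl
    rw [ih] at h1 h2
    simp only [st]
    rw [ih]
    ext k
    · simp only [h1 k]
    · simp only [h1 k, h2 k]

theorem T_congr {r : ℝ} {D D' : ℕ → ℕ → ℝ} {n : ℕ}
    (h : ∀ i j, i ≤ j → j ≤ n → D i j = D' i j) (k : ℕ) : T r D n k = T r D' n k := by
  unfold T
  rw [st_congr h]

end

end Q192.BT
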