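import Mathlib
import Pool.Agent.Q192.BT.Chain
import Pool.Agent.Q192.BT.Tree

/-!
# The vertices on the arc from the root to a point
-/

set_option autoImplicit false

namespace Q192.BT

open Set Topology Metric Classical

noncomputable section

universe u

section

variable {X : Type u} [MetricSpace X]

/-- the next vertex -/
def nx (r : ℝ) (x u : X) : X :=
  if h : ∃ w, w ∈ I u x ∧ dd u w = r ∧ ∀ z ∈ I u w, z ≠ w → dd u z < r then h.choose else u

/-- the vertices -/
def pt (p : X) (r : ℝ) (x : X) : ℕ → X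
  | 0 => p
  | n + 1 => nx r x (pt p r x n)

/-- the number of vertices -/
def NN (p : X) (r : ℝ) (x : X) : ℕ := sInf {n | dd (pt p r x n) x < r}

/-- distances of the vertices -/
def DD (p : X) (r : ℝ) (x : X) (m n : ℕ) : ℝ := dd (pt p r x m) (pt p r x n)

/-- the function of scale r -/
def ff (p : X) (r : ℝ) (x : X) : ℝ := T r (DD p r x) (NN p r x) 0

variable (hT : Tr X)

include hT

theorem nx_spec {r : ℝ} (hr : 0 < r) {x u : X} (h : r ≤ dd u x) :
    nx r x u ∈ I u x ∧ dd u (nx r x u) = r ∧ ∀ z ∈ I u (nx r x u), z ≠ nx r x u → dd u z < r := by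
  have h1 : ∃ w, w ∈ I u x ∧ dd u w = r ∧ ∀ z ∈ I u w, z ≠ w → dd u z < r := exists_next hT hr h
  have h2 : nx r x u = h1.choose := dif_pos h1
  rw [h2]
  exact h1.choose_spec

omit hT in
theorem nx_mem {r : ℝ} {x u : X} : nx r x u ∈ I u x := by
  by_cases h : ∃ w, w ∈ I u x ∧ dd u w = r ∧ ∀ z ∈ I u w, z ≠ w → dd u z < r
  · have h2 : nx r x u = h.choose := dif_pos h
    rw [h2]
    exact h.choose_spec.1
  · have h2 : nx r x u = u := dif_neg h
    rw [h2]
    exact left_mem u x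

omit hT in
theorem pt_mem (p : X) (r : ℝ) (x : X) (n : ℕ) : pt p r x n ∈ I p x := by
  induction n with
  | zero => exact left_mem p x
  | succ n ih => exact I_sub ih (right_mem p x) nx_mem

theorem exists_small {r : ℝ} (hr : 0 < r) (p x : X) : ∃ n, dd (pt p r x n) x < r := by
  by_contra hno
  push Not at hno
  obtain ⟨α, h1, h2, h3, h4⟩ := hT p x
  obtain ⟨δ, hδ, hd⟩ := unif h1 h4 hr
  have key : ∀ n : ℕ, ∃ s, n * δ ≤ s ∧ 0 ≤ s ∧ s ≤ 1 ∧ α s = pt p r x n := by
    intro n
    induction n with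
    | zero => exact ⟨0, by simp, le_rfl, zero_le_one, h2⟩
    | succ n ih =>
      obtain ⟨s, hs1, hs2, hs3, hs4⟩ := ih
      obtain ⟨g1, g2, -⟩ := nx_spec hT hr (hno n)
      rw [← hs4, ← h3, h4 s 1 hs2 hs3 le_rfl] at g1
      obtain ⟨t, ⟨ht1, ht2⟩, ht3⟩ := g1
      rw [h3, hs4] at ht3
      refine ⟨t, ?_, hs2.trans ht1, ht2, ht3⟩
      by_contra hlt
      push Not at hlt
      push_cast at hlt
      have := hd s ⟨hs2, hs3⟩ t ⟨hs2.trans ht1, ht2⟩ (by rw [abs_lt]; constructor <;> linarith)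
      rw [hs4, ht3, g2] at this
      exact lt_irrefl _ this
  obtain ⟨n, hn⟩ := exists_nat_gt (1 / δ)
  obtain ⟨s, hs1, -, hs3, -⟩ := key n
  rw [div_lt_iff₀ hδ] at hn
  linarith

theorem NN_spec {r : ℝ} (hr : 0 < r) (p x : X) : dd (pt p r x (NN p r x)) x < r :=
  Nat.sInf_mem (exists_small hT hr p x)

omit hT in
theorem lt_NN {r : ℝ} {p x : X} {n : ℕ} (h : n < NN p r x) : r ≤ dd (pt p r x n) x := by
  have := Nat.notMem_of_lt_sInf h
  simpa using this

theorem pt_step {r : ℝ} (hr : 0 < r) {p x : X} {n : ℕ} (h : n < NN p r x) :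
    dd (pt p r x n) (pt p r x (n + 1)) = r := (nx_spec hT hr (lt_NN h)).2.1

theorem pt_low {r : ℝ} {p x : X} {m n : ℕ} (h : m ≤ n) :
    pt p r x m ∈ I p (pt p r x n) := by
  induction n, h using Nat.le_induction with
  | base => exact right_mem _ _
  | succ n hmn ih =>
    have h1 : pt p r x n ∈ I p (pt p r x (n + 1)) := I_low hT (pt_mem p r x n) nx_mem
    exact I_sub (left_mem _ _) h1 ih

theorem hyp {r : ℝ} (hr : 0 < r) (p x : X) : Hyp r (DD p r x) (NN p r x) where
  pos := hr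
  self n _ := dd_self _
  mono m m' n' n h1 h2 h3 _ := by
    apply dd_mono hT
    · exact I_mid hT (pt_low hT h1) (pt_low hT (h2.trans h3))
    · exact I_mid hT (pt_low hT (h1.trans h2)) (pt_low hT h3)
  sub l m n _ _ _ := dd_triangle hT _ _ _
  step n hn := pt_step hT hr hn

theorem compat {r : ℝ} (hr : 0 < r) {p x y : X} (hy : y ∈ I p x) {n : ℕ} (hn : n ≤ NN p r y) :
    pt p r y n = pt p r x n := by
  induction n with
  | zero => rfl
  | succ n ih =>
    have ih := ih (by omega)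
    have h1 : r ≤ dd (pt p r y n) y := lt_NN hn
    obtain ⟨a1, a2, a3⟩ := nx_spec hT hr h1
    have h2 : y ∈ I (pt p r y n) x := I_mid hT (pt_mem p r y n) hy
    have h3 : r ≤ dd (pt p r x n) x := by
      rw [← ih]
      exact h1.trans (dd_mono hT (left_mem _ _) h2)
    obtain ⟨b1, b2, b3⟩ := nx_spec hT hr h3
    change nx r y (pt p r y n) = nx r x (pt p r x n)
    rw [← ih] at b1 b2 b3 ⊢
    exact next_unique hT (I_sub (left_mem _ _) h2 a1) b1 a2 a3 b2 b3

theorem NN_mono {r : ℝ} (hr : 0 < r) {p x y : X} (hy : y ∈ I p x) : NN p r y ≤ NN p r x := by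
  by_contra hlt
  push Not at hlt
  have h1 := NN_spec hT hr p x
  have h2 := lt_NN hlt
  rw [compat hT hr hy hlt.le] at h2
  have h3 : y ∈ I (pt p r x (NN p r x)) x := by
    rw [← compat hT hr hy hlt.le]
    exact I_mid hT (pt_mem p r y _) hy
  have h4 := dd_mono hT (left_mem _ _) h3
  linarith

theorem ff_eq {r : ℝ} (hr : 0 < r) {p x y : X} (hy : y ∈ I p x) :
    ff p r y = T r (DD p r x) (NN p r y) 0 := by
  apply T_congr
  intro i j hij hj
  unfold DD
  rw [compat hT hr hy hj, compat hT hr hy (hij.trans hj)]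

theorem NN_pt {r : ℝ} (hr : 0 < r) {p x : X} {w : ℕ} (hw : w ≤ NN p r x) :
    NN p r (pt p r x w) = w := by
  have hy := pt_mem p r x w
  apply le_antisymm
  · by_contra hlt
    push Not at hlt
    have h1 := lt_NN hlt
    rw [compat hT hr hy hlt.le, dd_self] at h1
    linarith
  · by_contra hlt
    push Not at hlt
    have h1 := NN_spec hT hr p (pt p r x w)
    rw [compat hT hr hy le_rfl] at h1
    have H := hyp hT hr p x
    have h2 := H.mono _ _ _ _ (le_refl (NN p r (pt p r x w))) (Nat.le_succ _) hlt hw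
    have h3 := H.step _ (lt_of_lt_of_le hlt hw)
    unfold DD at h2 h3
    simp only [Nat.succ_eq_add_one] at h2
    linarith

theorem ff_upper {r : ℝ} (hr : 0 < r) {p x y : X} (hy : y ∈ I p x) (k : ℕ)
    (h : dd y x + r < R r k) : |ff p r x - ff p r y| ≤ 8 * R r k := by
  rw [ff_eq hT hr hy]
  apply upper (hyp hT hr p x) k (NN_mono hT hr hy) le_rfl
  unfold DD
  have h1 := NN_spec hT hr p y
  rw [compat hT hr hy le_rfl] at h1
  have h2 : dd (pt p r x (NN p r y)) (pt p r x (NN p r x)) ≤ dd (pt p r x (NN p r y)) x := by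
    apply dd_mono hT (left_mem _ _)
    exact I_mid hT (pt_low hT (NN_mono hT hr hy)) (pt_mem p r x _)
  have h3 := dd_triangle hT (pt p r x (NN p r y)) x y
  linarith

theorem ff_lower {r : ℝ} (hr : 0 < r) {p x y : X} (hy : y ∈ I p x) (k : ℕ)
    (h : 4 * R r (k + 1) + r ≤ dd y x) :
    ∃ s ∈ I y x, ∃ t ∈ I y x, R r (k + 1) / 2 ≤ |ff p r s - ff p r t| := by
  have H := hyp hT hr p x
  have hN := NN_mono hT hr hy
  have hu : pt p r x (NN p r y) ∈ I p y := by
    rw [← compat hT hr hy le_rfl]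
    exact pt_mem p r y _
  have hyu : y ∈ I (pt p r x (NN p r y)) x := I_mid hT hu hy
  have h1 : dd y x ≤ dd (pt p r x (NN p r y)) x := dd_mono hT hyu (right_mem _ _)
  have h2 := dd_triangle hT (pt p r x (NN p r y)) x (pt p r x (NN p r x))
  have h3 := NN_spec hT hr p x
  obtain ⟨w, w', hw1, hw2, hw3, hw4, hw5⟩ := lower H k hN le_rfl (by
    unfold DD
    linarith)
  have hmem : ∀ w, NN p r y < w → w ≤ NN p r x → pt p r x w ∈ I y x := by
    intro w hw1 hw2
    rcases I_total hT hy (pt_mem p r x w) with ⟨-, h4⟩ | ⟨h4, -⟩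
    · exact h4
    · exfalso
      have h5 : pt p r x (NN p r y + 1) ∈ I p y := I_sub (left_mem _ _) h4 (pt_low hT hw1)
      have h6 : pt p r x (NN p r y + 1) ∈ I (pt p r x (NN p r y)) y :=
        I_mid hT (pt_low hT (Nat.le_succ _)) h5
      have h7 := dd_mono hT (left_mem _ _) h6
      rw [pt_step hT hr (by omega)] at h7
      have h8 := NN_spec hT hr p y
      rw [compat hT hr hy le_rfl] at h8
      linarith
  refine ⟨_, hmem w hw1 hw2, _, hmem w' hw3 hw4, ?_⟩
  rw [ff_eq hT hr (pt_mem p r x w), ff_eq hT hr (pt_mem p r x w'), NN_pt hT hr hw2,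
    NN_pt hT hr hw4]
  exact hw5

end

end

end Q192.BT
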