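import Mathlib
import Pool.Agent.Q192.BT.Pts

/-!
# The limit function
-/

set_option autoImplicit false

namespace Q192.BT

open Set Topology Metric Filter

noncomputable section

universe u

theorem R_zpow (K : ℕ) (j : ℤ) (h : 0 ≤ K + j) :
    R ((1 / 100) ^ K) (K + j).toNat = (100:ℝ) ^ j := by
  unfold R
  rw [← zpow_natCast (100:ℝ) (K + j).toNat, Int.toNat_of_nonneg h, one_div, inv_pow,
    ← zpow_natCast (100:ℝ) K, ← zpow_neg, ← zpow_add₀ (by norm_num)]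
  congr 1
  ring

section

variable {X : Type u} [MetricSpace X] (hT : Tr X)

include hT

theorem upper_K {p x y : X} (hy : y ∈ I p x) (j : ℤ) {K : ℕ} (hK : 0 ≤ K + j)
    (h : dd y x + (1 / 100) ^ K < (100:ℝ) ^ j) :
    |ff p ((1 / 100) ^ K) x - ff p ((1 / 100) ^ K) y| ≤ 8 * (100:ℝ) ^ j := by
  have := ff_upper hT (by positivity : (0:ℝ) < (1 / 100) ^ K) hy (K + j).toNat
    (by rw [R_zpow K j hK]; exact h)
  rwa [R_zpow K j hK] at this

theorem lower_K {p x y : X} (hy : y ∈ I p x) (j : ℤ) {K : ℕ} (hK : 1 ≤ K + j)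
    (h : 4 * (100:ℝ) ^ j + (1 / 100) ^ K ≤ dd y x) :
    ∃ s ∈ I y x, ∃ t ∈ I y x,
      (100:ℝ) ^ j / 2 ≤ |ff p ((1 / 100) ^ K) s - ff p ((1 / 100) ^ K) t| := by
  obtain ⟨k, hk⟩ : ∃ k : ℕ, (K + j).toNat = k + 1 := ⟨(K + j).toNat - 1, by omega⟩
  have hR := R_zpow K j (by omega)
  rw [hk] at hR
  have := ff_lower hT (by positivity : (0:ℝ) < (1 / 100) ^ K) hy k (by rw [hR]; exact h)
  rwa [hR] at this

omit hT in
theorem ff_root {r : ℝ} (hr : 0 < r) (p : X) : ff p r p = 0 := by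
  have h : NN p r p = 0 := by
    apply Nat.sInf_eq_zero.2
    left
    change dd p p < r
    rw [dd_self]
    exact hr
  unfold ff
  rw [h]
  rfl

theorem bdd (p x : X) : ∃ M : ℝ, ∀ K : ℕ, ff p ((1 / 100) ^ K) x ∈ Icc (-M) M := by
  obtain ⟨n, hn⟩ := pow_unbounded_of_one_lt (dd p x + 1) (show (1:ℝ) < 100 by norm_num)
  refine ⟨8 * (100:ℝ) ^ n, fun K => ?_⟩
  have h1 : ((1 / 100 : ℝ)) ^ K ≤ 1 := pow_le_one₀ (by norm_num) (by norm_num)
  have h2 := upper_K hT (left_mem p x) (n : ℤ) (K := K) (by omega) (by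
    rw [zpow_natCast]
    linarith)
  rw [ff_root (by positivity : (0:ℝ) < (1 / 100) ^ K), sub_zero, zpow_natCast, abs_le] at h2
  exact h2

theorem exists_limit (p : X) : ∃ f : X → ℝ, ∀ x,
    Tendsto (fun K : ℕ => ff p ((1 / 100) ^ K) x) (hyperfilter ℕ : Filter ℕ) (𝓝 (f x)) := by
  have h : ∀ x : X, ∃ l : ℝ, Tendsto (fun K : ℕ => ff p ((1 / 100) ^ K) x)
      (hyperfilter ℕ : Filter ℕ) (𝓝 l) := by
    intro x
    obtain ⟨M, hM⟩ := bdd hT p x
    obtain ⟨l, -, hl⟩ := isCompact_Icc.ultrafilter_le_nhds'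
      ((hyperfilter ℕ).map fun K : ℕ => ff p ((1 / 100) ^ K) x)
      (s := Icc (-M) M) (Ultrafilter.mem_map.2 (Filter.univ_mem' hM))
    exact ⟨l, hl⟩
  choose f hf using h
  exact ⟨f, hf⟩

omit hT in
theorem ev_large (N : ℕ) : ∀ᶠ K in (hyperfilter ℕ : Filter ℕ), N ≤ K :=
  Nat.hyperfilter_le_atTop (eventually_ge_atTop N)

omit hT in
theorem ev_small {ε : ℝ} (hε : 0 < ε) :
    ∀ᶠ K in (hyperfilter ℕ : Filter ℕ), ((1 / 100 : ℝ)) ^ K < ε :=
  Nat.hyperfilter_le_atTop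
    ((tendsto_pow_atTop_nhds_zero_of_lt_one (by norm_num) (by norm_num)).eventually_lt_const hε)

variable {p : X} {f : X → ℝ} (hf : ∀ x,
    Tendsto (fun K : ℕ => ff p ((1 / 100) ^ K) x) (hyperfilter ℕ : Filter ℕ) (𝓝 (f x)))

include hf

theorem f_upper {x y : X} (hy : y ∈ I p x) (j : ℤ) (h : dd y x < (100:ℝ) ^ j) :
    |f x - f y| ≤ 8 * (100:ℝ) ^ j := by
  apply le_of_tendsto ((hf x).sub (hf y)).abs
  filter_upwards [ev_large (-j).toNat, ev_small (sub_pos.2 h)] with K h1 h2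
  apply upper_K hT hy j (by omega)
  linarith

theorem f_vert {x y : X} (hy : y ∈ I p x) : |f x - f y| ≤ 800 * dd y x := by
  rcases (dd_nonneg y x).eq_or_lt with h | h
  · have h1 := dist_le_dd hT y x
    have h2 : y = x := dist_le_zero.1 (by linarith)
    rw [h2, dd_self, sub_self, abs_zero, mul_zero]
  · obtain ⟨n, hn1, hn2⟩ := exists_mem_Ico_zpow h (show (1:ℝ) < 100 by norm_num)
    have h1 := f_upper hT hf hy (n + 1) hn2
    rw [zpow_add₀ (by norm_num), zpow_one] at h1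
    linarith

theorem f_lip (x y : X) : |f x - f y| ≤ 1600 * dd x y := by
  obtain ⟨m, h1, h2, h3⟩ := median hT p x y
  have h4 := f_vert hT hf h1
  have h5 := f_vert hT hf h2
  have h6 : dd m x ≤ dd x y := dd_mono hT h3 (left_mem _ _)
  have h7 : dd m y ≤ dd x y := dd_mono hT h3 (right_mem _ _)
  have h8 := abs_sub_le (f x) (f m) (f y)
  rw [abs_sub_comm (f m)] at h8
  linarith

theorem f_lower {x y : X} (hy : y ∈ I p x) :
    ∃ s ∈ I y x, ∃ t ∈ I y x, dd y x / 2000 ≤ |f s - f t| := by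
  rcases (dd_nonneg y x).eq_or_lt with h | h
  · refine ⟨y, left_mem _ _, y, left_mem _ _, ?_⟩
    rw [← h, sub_self, abs_zero, zero_div]
  obtain ⟨n, hn1, hn2⟩ := exists_mem_Ico_zpow (show (0:ℝ) < dd y x / 5 by linarith)
    (show (1:ℝ) < 100 by norm_num)
  have hρ : (0:ℝ) < 100 ^ n := by positivity
  have hρ2 : (0:ℝ) < 100 ^ (n - 2) := by positivity
  have e2 : (100:ℝ) ^ n = 10000 * 100 ^ (n - 2) := by
    rw [zpow_sub₀ (by norm_num)]
    norm_num
    ring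
  rw [zpow_add₀ (by norm_num), zpow_one] at hn2
  obtain ⟨α, h1, h2, h3, h4⟩ := hT y x
  have hIα : I y x = α '' Icc 0 1 := by rw [← h2, ← h3, h4 0 1 le_rfl zero_le_one le_rfl]
  have hex : ∀ K : ℕ, ∃ σ ∈ Icc (0:ℝ) 1, ∃ τ ∈ Icc (0:ℝ) 1,
      1 ≤ K + n → (1 / 100 : ℝ) ^ K < 100 ^ n →
      (100:ℝ) ^ n / 2 ≤ |ff p ((1 / 100) ^ K) (α σ) - ff p ((1 / 100) ^ K) (α τ)| := by
    intro K
    by_cases hc : 1 ≤ K + n ∧ (1 / 100 : ℝ) ^ K < 100 ^ n
    · obtain ⟨s, hs, t, ht, hst⟩ := lower_K hT hy n hc.1 (by linarith [hc.2])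
      rw [hIα] at hs ht
      obtain ⟨σ, hσ, rfl⟩ := hs
      obtain ⟨τ, hτ, rfl⟩ := ht
      exact ⟨σ, hσ, τ, hτ, fun _ _ => hst⟩
    · exact ⟨0, ⟨le_rfl, zero_le_one⟩, 0, ⟨le_rfl, zero_le_one⟩, fun a b => absurd ⟨a, b⟩ hc⟩
  choose σ hσ τ hτ hK using hex
  obtain ⟨s, hs, hs'⟩ := isCompact_Icc.ultrafilter_le_nhds' ((hyperfilter ℕ).map σ)
      (s := Icc (0:ℝ) 1) (Ultrafilter.mem_map.2 (Filter.univ_mem' hσ))
  obtain ⟨t, ht, ht'⟩ := isCompact_Icc.ultrafilter_le_nhds' ((hyperfilter ℕ).map τ)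
      (s := Icc (0:ℝ) 1) (Ultrafilter.mem_map.2 (Filter.univ_mem' hτ))
  have hs'' : Tendsto σ (hyperfilter ℕ : Filter ℕ) (𝓝 s) := hs'
  have ht'' : Tendsto τ (hyperfilter ℕ : Filter ℕ) (𝓝 t) := ht'
  obtain ⟨δ, hδ, hd⟩ := unif h1 h4 (show (0:ℝ) < 100 ^ (n - 2) / 2 by linarith)
  have hmem : ∀ a ∈ Icc (0:ℝ) 1, α a ∈ I y x := by
    intro a ha
    rw [hIα]
    exact ⟨a, ha, rfl⟩
  have hmem' : ∀ a ∈ Icc (0:ℝ) 1, α a ∈ I p x := fun a ha =>
    I_sub hy (right_mem p x) (hmem a ha)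
  have close : ∀ a ∈ Icc (0:ℝ) 1, ∀ b ∈ Icc (0:ℝ) 1, |a - b| < δ → ∀ K : ℕ, 0 ≤ K + (n - 2) →
      (1 / 100 : ℝ) ^ K < 100 ^ (n - 2) / 2 →
      |ff p ((1 / 100) ^ K) (α a) - ff p ((1 / 100) ^ K) (α b)| ≤ 8 * (100:ℝ) ^ (n - 2) := by
    intro a ha b hb hab K hK1 hK2
    have h5 := hd a ha b hb hab
    rcases I_total hT (hmem' a ha) (hmem' b hb) with ⟨h6, -⟩ | ⟨h6, -⟩
    · rw [abs_sub_comm]
      exact upper_K hT h6 (n - 2) hK1 (by linarith)
    · rw [dd_comm] at h5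
      exact upper_K hT h6 (n - 2) hK1 (by linarith)
  refine ⟨α s, hmem s hs, α t, hmem t ht, ?_⟩
  have hlim : (4 / 10) * (100:ℝ) ^ n ≤ |f (α s) - f (α t)| := by
    apply ge_of_tendsto ((hf (α s)).sub (hf (α t))).abs
    filter_upwards [ev_large (3 - n).toNat, ev_small (show (0:ℝ) < 100 ^ (n - 2) / 2 by linarith),
      (Metric.tendsto_nhds.1 hs'' δ hδ), (Metric.tendsto_nhds.1 ht'' δ hδ)] with K g1 g2 g3 g4
    rw [Real.dist_eq] at g3 g4
    have g5 := hK K (by omega) (by linarith)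
    have g6 := close _ (hσ K) s hs g3 K (by omega) g2
    have g7 := close _ (hτ K) t ht g4 K (by omega) g2
    have g8 := abs_sub_le (ff p ((1 / 100) ^ K) (α (σ K))) (ff p ((1 / 100) ^ K) (α s))
      (ff p ((1 / 100) ^ K) (α (τ K)))
    have g9 := abs_sub_le (ff p ((1 / 100) ^ K) (α s)) (ff p ((1 / 100) ^ K) (α t))
      (ff p ((1 / 100) ^ K) (α (τ K)))
    rw [abs_sub_comm (ff p ((1 / 100) ^ K) (α t))] at g9
    linarith
  linarith

/-- every interval is covered by the intervals of a chain -/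
theorem chain_light {B : ℝ} (hB : ∀ x y : X, dd x y ≤ B * dist x y) (hB0 : 1 ≤ B) {W : Set ℝ}
    (hW : Bornology.IsBounded W) (hW0 : 0 < diam W) {n : ℕ} {z : ℕ → X}
    (hz : ∀ i ≤ n, f (z i) ∈ W) (hd : ∀ i < n, dist (z i) (z (i + 1)) ≤ diam W) :
    dist (z 0) (z n) ≤ 4000 * (3200 * B + 1) * diam W := by
  have key : ∀ k ≤ n, ∀ w ∈ I (z 0) (z k), ∃ a ∈ W, |f w - a| ≤ 1600 * B * diam W := by
    intro k
    induction k with
    | zero =>
      intro _ w hw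
      rw [I_self] at hw
      refine ⟨f (z 0), hz 0 (Nat.zero_le _), ?_⟩
      rw [mem_singleton_iff.1 hw, sub_self, abs_zero]
      positivity
    | succ k ih =>
      intro hk w hw
      rcases I_union hT _ _ (z k) hw with h | h
      · exact ih (by omega) w h
      · refine ⟨f (z k), hz k (by omega), ?_⟩
        have h1 := f_lip hT hf w (z k)
        have h2 : dd w (z k) ≤ dd (z k) (z (k + 1)) := dd_mono hT h (left_mem _ _)
        have h3 := hB (z k) (z (k + 1))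
        have h4 := hd k hk
        have h5 : B * dist (z k) (z (k + 1)) ≤ B * diam W :=
          mul_le_mul_of_nonneg_left h4 (by linarith)
        linarith
  have osc : ∀ w ∈ I (z 0) (z n), ∀ w' ∈ I (z 0) (z n), |f w - f w'| ≤ (3200 * B + 1) * diam W := by
    intro w hw w' hw'
    obtain ⟨a, ha, h1⟩ := key n le_rfl w hw
    obtain ⟨b, hb, h2⟩ := key n le_rfl w' hw'
    have h3 : |a - b| ≤ diam W := by
      rw [← Real.dist_eq]
      exact dist_le_diam_of_mem hW ha hb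
    have h4 := abs_sub_le (f w) a (f w')
    have h5 := abs_sub_le a b (f w')
    rw [abs_sub_comm b] at h5
    linarith
  have vert : ∀ m x, m ∈ I p x → m ∈ I (z 0) (z n) → x ∈ I (z 0) (z n) →
      dist m x ≤ 2000 * ((3200 * B + 1) * diam W) := by
    intro m x h1 h2 h3
    obtain ⟨s, hs, t, ht, hst⟩ := f_lower hT hf h1
    have h4 := osc s (I_sub h2 h3 hs) t (I_sub h2 h3 ht)
    have h5 := dist_le_dd hT m x
    linarith
  obtain ⟨m, h1, h2, h3⟩ := median hT p (z 0) (z n)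
  have h4 := vert m (z 0) h1 h3 (left_mem _ _)
  have h5 := vert m (z n) h2 h3 (right_mem _ _)
  have h6 := dist_triangle_left (z 0) (z n) m
  linarith

end

end

end Q192.BT
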